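import Pool.Agent.H23.GZ.Targets5

/-!
Board gz, row AP2 (MP_52e316_nt): the a priori bound for test functions extends to the Gaussians
`exp (-pi fr z) |det z| ^ w`.
-/

set_option autoImplicit false

namespace Pool.Agent.H92.GZ

open MeasureTheory Pool.Agent.H34.GM Pool.Agent.H34.GZ

theorem fr_eq_trace {m : ℕ} (z : Mat m) : fr z = (z.transpose * z).trace := by
  unfold fr Matrix.trace
  simp only [Matrix.diag_apply, Matrix.mul_apply, Matrix.transpose_apply]
  rw [Finset.sum_comm]
  refine Finset.sum_congr rfl fun i _ => Finset.sum_congr rfl fun j _ => ?_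
  ring

theorem fr_left {m : ℕ} {u : Mat m} (hu : u * u.transpose = 1) (z : Mat m) :
    fr (u * z) = fr z := by
  have hu' : u.transpose * u = 1 := mul_eq_one_comm.1 hu
  rw [fr_eq_trace, fr_eq_trace, Matrix.transpose_mul]
  have : z.transpose * u.transpose * (u * z) = z.transpose * (u.transpose * u) * z := by
    simp only [Matrix.mul_assoc]
  rw [this, hu', Matrix.mul_one]

theorem fr_right {m : ℕ} {u : Mat m} (hu : u * u.transpose = 1) (z : Mat m) :
    fr (z * u) = fr z := by
  rw [fr_eq_trace, fr_eq_trace, Matrix.transpose_mul]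
  have : u.transpose * z.transpose * (z * u) = u.transpose * (z.transpose * z * u) := by
    simp only [Matrix.mul_assoc]
  rw [this, Matrix.trace_mul_comm, Matrix.mul_assoc, hu, Matrix.mul_one]

theorem det_orth {m : ℕ} {u : Mat m} (hu : u * u.transpose = 1) : |u.det| = 1 := by
  have h := congrArg Matrix.det hu
  rw [Matrix.det_mul, Matrix.det_transpose, Matrix.det_one] at h
  rcases mul_self_eq_one_iff.1 h with h1 | h1 <;> rw [h1] <;> simp

theorem fr_nonneg {m : ℕ} (z : Mat m) : 0 ≤ fr z :=
  Finset.sum_nonneg fun _ _ => Finset.sum_nonneg fun _ _ => sq_nonneg _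

theorem sz_nonneg {m : ℕ} (z : Mat m) : 0 ≤ sz z := norm_nonneg _

theorem sz_sq_le {m : ℕ} (z : Mat m) : sz z ^ 2 ≤ fr z := by
  have h1 : sz z ≤ Real.sqrt (fr z) := by
    unfold sz
    refine (pi_norm_le_iff_of_nonneg (Real.sqrt_nonneg _)).2 fun i => ?_
    refine (pi_norm_le_iff_of_nonneg (Real.sqrt_nonneg _)).2 fun j => ?_
    rw [Real.norm_eq_abs]
    refine Real.abs_le_sqrt ?_
    unfold fr
    refine le_trans ?_ (Finset.single_le_sum (f := fun i => ∑ j, z i j ^ 2)
      (fun _ _ => Finset.sum_nonneg fun _ _ => sq_nonneg _) (Finset.mem_univ i))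
    exact Finset.single_le_sum (f := fun j => z i j ^ 2) (fun _ _ => sq_nonneg _)
      (Finset.mem_univ j)
  calc sz z ^ 2 ≤ Real.sqrt (fr z) ^ 2 := pow_le_pow_left₀ (sz_nonneg z) h1 2
    _ = fr z := Real.sq_sqrt (fr_nonneg z)

/-- the cut-off -/
noncomputable def ct {m : ℕ} (n : ℕ) (z : Mat m) : ℝ :=
  max 0 (min 1 (2 - fr z / (n + 1))) * max 0 (min 1 ((n + 1) * |z.det| - 1))

theorem ct_nonneg {m : ℕ} (n : ℕ) (z : Mat m) : 0 ≤ ct n z :=
  mul_nonneg (le_max_left _ _) (le_max_left _ _)

theorem ct_le {m : ℕ} (n : ℕ) (z : Mat m) : ct n z ≤ 1 := by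
  unfold ct
  have h : ∀ x : ℝ, max 0 (min 1 x) ≤ 1 := fun x => max_le zero_le_one (min_le_left _ _)
  calc _ ≤ (1 : ℝ) * 1 := mul_le_mul (h _) (h _) (le_max_left _ _) zero_le_one
    _ = 1 := one_mul 1

theorem ct_supp {m : ℕ} (n : ℕ) (z : Mat m) (h : ct n z ≠ 0) :
    fr z ≤ 2 * (n + 1) ∧ ((n : ℝ) + 1)⁻¹ ≤ |z.det| := by
  have hn : (0 : ℝ) < n + 1 := by positivity
  unfold ct at h
  have h1 := left_ne_zero_of_mul h
  have h2 := right_ne_zero_of_mul h
  constructor
  · by_contra hc
    push Not at hc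
    apply h1
    apply max_eq_left
    refine (min_le_right _ _).trans ?_
    have : 2 ≤ fr z / (n + 1) := by
      rw [le_div_iff₀ hn]
      exact hc.le
    linarith
  · by_contra hc
    push Not at hc
    apply h2
    apply max_eq_left
    refine (min_le_right _ _).trans ?_
    have : (n + 1) * |z.det| ≤ 1 := by
      calc (n + 1) * |z.det| ≤ (n + 1) * ((n : ℝ) + 1)⁻¹ := by gcongr
        _ = 1 := mul_inv_cancel₀ hn.ne'
    linarith

theorem ct_one {m : ℕ} {n : ℕ} {z : Mat m} (h1 : fr z ≤ n + 1) (h2 : 2 ≤ (n + 1) * |z.det|) :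
    ct n z = 1 := by
  have hn : (0 : ℝ) < n + 1 := by positivity
  unfold ct
  have e1 : fr z / (n + 1) ≤ 1 := (div_le_one hn).2 h1
  rw [min_eq_left (by linarith), min_eq_left (by linarith), max_eq_right zero_le_one, one_mul]

theorem continuous_fr {m : ℕ} : Continuous (fun z : Mat m => fr z) := by
  unfold fr
  refine continuous_finsetSum _ fun i _ => continuous_finsetSum _ fun j _ => ?_
  exact (continuous_id.matrix_elem i j).pow 2

theorem continuous_ct {m : ℕ} (n : ℕ) : Continuous (fun z : Mat m => ct n z) := by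
  have hd : Continuous fun z : Mat m => |z.det| := (continuous_id.matrix_det).abs
  unfold ct
  exact (continuous_const.max (continuous_const.min
    (continuous_const.sub (continuous_fr.div_const _)))).mul
    (continuous_const.max (continuous_const.min
      ((continuous_const.mul hd).sub continuous_const)))

/-- the Gaussian kernel -/
noncomputable def ks {m : ℕ} (w : ℂ) (z : Mat m) : ℂ :=
  ((Real.exp (-Real.pi * fr z) : ℝ) : ℂ) * ((|z.det| : ℝ) : ℂ) ^ w

theorem continuous_ks {m : ℕ} {w : ℂ} (hw : 0 < w.re) : Continuous (fun z : Mat m => ks w z) := by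
  have hd : Continuous fun z : Mat m => |z.det| := (continuous_id.matrix_det).abs
  unfold ks
  refine Continuous.mul ?_ ?_
  · exact Complex.continuous_ofReal.comp (Real.continuous_exp.comp
      (continuous_const.mul continuous_fr))
  · exact (Complex.continuous_ofReal_cpow_const hw).comp hd

theorem tst_kn {m : ℕ} {w : ℂ} (hw : 0 < w.re) (n : ℕ) :
    Tst m (fun z => ((ct n z : ℝ) : ℂ) * ks w z) where
  cont := (Complex.continuous_ofReal.comp (continuous_ct n)).mul (continuous_ks hw)
  supp := by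
    have hn : (0 : ℝ) < n + 1 := by positivity
    refine ⟨2 * (n + 1), by positivity, fun z hz => ?_⟩
    have h0 : ct n z ≠ 0 := by
      intro h0
      apply hz
      simp [h0]
    obtain ⟨h1, h2⟩ := ct_supp n z h0
    constructor
    · have h3 := (sz_sq_le z).trans h1
      have h4 : sz z ^ 2 ≤ (2 * ((n : ℝ) + 1)) ^ 2 := by
        refine h3.trans ?_
        have : (1 : ℝ) ≤ 2 * (n + 1) := by
          have : (0 : ℝ) ≤ n := Nat.cast_nonneg n
          linarith
        nlinarith
      exact le_of_sq_le_sq h4 (by positivity)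
    · refine le_trans ?_ h2
      exact inv_anti₀ hn (by linarith)
  left := by
    intro u hu z
    have h1 : |(u * z).det| = |z.det| := by
      rw [Matrix.det_mul, abs_mul, det_orth hu, one_mul]
    simp only [ct, ks, fr_left hu, h1]
  right := by
    intro u hu z
    have h1 : |(z * u).det| = |z.det| := by
      rw [Matrix.det_mul, abs_mul, det_orth hu, mul_one]
    simp only [ct, ks, fr_right hu, h1]

theorem norm_ks {m : ℕ} {w : ℂ} (hw : 0 < w.re) (z : Mat m) :
    ‖ks w z‖ = Real.exp (-Real.pi * fr z) * |z.det| ^ w.re := by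
  unfold ks
  rw [norm_mul, Complex.norm_real, Real.norm_eq_abs, abs_of_pos (Real.exp_pos _)]
  congr 1
  exact Complex.norm_cpow_eq_rpow_re_of_nonneg (abs_nonneg _) hw.ne'

/-- the Gaussian decays faster than powers -/
theorem gauss_le {m : ℕ} (N : ℕ) (z : Mat m) :
    Real.exp (-Real.pi * fr z) ≤ (N.factorial * Real.exp 2) * ((1 + sz z) ^ N)⁻¹ := by
  have hx := sz_nonneg z
  have h1 : (1 + sz z) ^ N ≤ N.factorial * Real.exp (1 + sz z) := by
    have := Real.pow_div_factorial_le_exp (1 + sz z) (by linarith) N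
    rw [div_le_iff₀ (by positivity)] at this
    linarith
  have h2 : -Real.pi * fr z ≤ -(sz z ^ 2) := by
    have h3 := sz_sq_le z
    have h4 := Real.pi_gt_three
    nlinarith [fr_nonneg z]
  rw [← div_eq_mul_inv, le_div_iff₀ (by positivity)]
  calc Real.exp (-Real.pi * fr z) * (1 + sz z) ^ N
      ≤ Real.exp (-(sz z ^ 2)) * (N.factorial * Real.exp (1 + sz z)) := by
        gcongr
    _ = N.factorial * Real.exp (-(sz z ^ 2) + (1 + sz z)) := by
        rw [Real.exp_add (-(sz z ^ 2)) (1 + sz z)]; ring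
    _ ≤ N.factorial * Real.exp 2 := by
        gcongr
        nlinarith [sq_nonneg (sz z - 1 / 2)]

/-- the uniform bound for the absolute moments of the Gaussian -/
theorem moment_le (hGSM : T_GSM) (hCOL : T_COL) (m : ℕ) (hm1 : 1 ≤ m) (σ0 : ℝ)
    (hσ0 : ((m : ℝ) - 1) / 2 < σ0) : ∃ C : ℝ, 0 < C ∧ ∀ σ : ℝ, σ0 ≤ σ → σ ≤ σ0 + 1 →
      ∫⁻ z, ENNReal.ofReal (Real.exp (-Real.pi * fr (mt z)) *
        |(mt z).det| ^ (σ + ((m : ℝ) - 1) / 2)) ∂(hm m) ≤ ENNReal.ofReal C := by
  have hm1' : (1 : ℝ) ≤ m := by exact_mod_cast hm1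
  set B : ℕ := ⌈σ0 + 1⌉₊ with hB
  have hB1 : σ0 + 1 ≤ B := Nat.le_ceil _
  obtain ⟨C, hC, hcol⟩ := hCOL m hm1 (σ0 - ((m : ℝ) - 1) / 2) B (by linarith) (Nat.cast_nonneg _)
  set N : ℕ := m * (B + m + 1) with hN
  refine ⟨(N.factorial * Real.exp 2) * C, by positivity, fun σ h1 h2 => ?_⟩
  have hdet : Measurable fun z : V m => (mt z).det := by
    have : Continuous fun z : V m => (mt z).det := by
      refine Continuous.matrix_det ?_
      exact continuous_id
    exact this.measurable
  have hfr : Measurable fun z : V m => fr (mt z) := by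
    have : Continuous fun z : V m => fr (mt z) := by
      unfold fr
      refine continuous_finsetSum _ fun i _ => continuous_finsetSum _ fun j _ => ?_
      simp only [Matrix.of_apply]
      fun_prop
    exact this.measurable
  unfold hm
  rw [lintegral_withDensity_eq_lintegral_mul]
  · have key : ∀ z : V m, (ENNReal.ofReal ((|(mt z).det| ^ m)⁻¹)) *
        ENNReal.ofReal (Real.exp (-Real.pi * fr (mt z)) *
          |(mt z).det| ^ (σ + ((m : ℝ) - 1) / 2)) ≤
        ENNReal.ofReal (N.factorial * Real.exp 2) * ENNReal.ofReal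
          ((∏ j, ‖oc (mt z) j‖ ^ (σ + ((m : ℝ) - 1) / 2 - m)) *
            (1 + sz (mt z)) ^ (-((m : ℝ) * (B + m + 1)))) := by
      intro z
      rw [← ENNReal.ofReal_mul (by positivity), ← ENNReal.ofReal_mul (by positivity)]
      apply ENNReal.ofReal_le_ofReal
      by_cases hz : (mt z).det = 0
      · rw [hz, abs_zero, zero_pow (by omega), inv_zero, zero_mul]
        refine mul_nonneg (by positivity) (mul_nonneg ?_ ?_)
        · exact Finset.prod_nonneg fun j _ => Real.rpow_nonneg (norm_nonneg _) _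
        · exact Real.rpow_nonneg (by have := sz_nonneg (mt z); linarith) _
      · have hpos : 0 < |(mt z).det| := abs_pos.2 hz
        have e1 : ∏ j, ‖oc (mt z) j‖ ^ (σ + ((m : ℝ) - 1) / 2 - m) =
            |(mt z).det| ^ (σ + ((m : ℝ) - 1) / 2 - m) := by
          rw [(hGSM m (mt z)).2.2.1]
          exact Real.finsetProd_rpow _ _ (fun j _ => norm_nonneg _) _
        have e2 : (1 + sz (mt z)) ^ (-((m : ℝ) * (B + m + 1))) = ((1 + sz (mt z)) ^ N)⁻¹ := by
          rw [Real.rpow_neg (by have := sz_nonneg (mt z); linarith), ← Real.rpow_natCast]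
          congr 2
          rw [hN]
          push_cast
          ring
        rw [e1, e2, Real.rpow_sub hpos, Real.rpow_natCast]
        have h3 := gauss_le N (mt z)
        have h4 : 0 ≤ (|(mt z).det| ^ m)⁻¹ * |(mt z).det| ^ (σ + ((m : ℝ) - 1) / 2) := by
          positivity
        calc (|(mt z).det| ^ m)⁻¹ * (Real.exp (-Real.pi * fr (mt z)) *
              |(mt z).det| ^ (σ + ((m : ℝ) - 1) / 2))
            = Real.exp (-Real.pi * fr (mt z)) * ((|(mt z).det| ^ m)⁻¹ *
              |(mt z).det| ^ (σ + ((m : ℝ) - 1) / 2)) := by ring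
          _ ≤ ((N.factorial * Real.exp 2) * ((1 + sz (mt z)) ^ N)⁻¹) * ((|(mt z).det| ^ m)⁻¹ *
              |(mt z).det| ^ (σ + ((m : ℝ) - 1) / 2)) := by gcongr
          _ = _ := by
            rw [div_eq_mul_inv]
            ring
    calc _ ≤ ∫⁻ z : V m, ENNReal.ofReal (N.factorial * Real.exp 2) * ENNReal.ofReal
          ((∏ j, ‖oc (mt z) j‖ ^ (σ + ((m : ℝ) - 1) / 2 - m)) *
            (1 + sz (mt z)) ^ (-((m : ℝ) * (B + m + 1)))) := lintegral_mono key
      _ = ENNReal.ofReal (N.factorial * Real.exp 2) * ∫⁻ z : V m, ENNReal.ofReal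
          ((∏ j, ‖oc (mt z) j‖ ^ (σ + ((m : ℝ) - 1) / 2 - m)) *
            (1 + sz (mt z)) ^ (-((m : ℝ) * (B + m + 1)))) :=
          lintegral_const_mul' _ _ ENNReal.ofReal_ne_top
      _ ≤ ENNReal.ofReal (N.factorial * Real.exp 2) * ENNReal.ofReal C := by
          gcongr
          refine hcol (fun _ => σ + ((m : ℝ) - 1) / 2 - m) fun j => ⟨?_, ?_⟩
          · have hj : ((j : ℕ) : ℝ) + 1 ≤ m := by
              have := j.2
              exact_mod_cast this
            linarith
          · linarith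
      _ = ENNReal.ofReal (N.factorial * Real.exp 2 * C) :=
          (ENNReal.ofReal_mul (by positivity)).symm
  · exact ((hdet.abs.pow_const m).inv).ennreal_ofReal
  · exact ((Real.measurable_exp.comp (hfr.const_mul _)).mul
      (hdet.abs.pow_const _)).ennreal_ofReal

theorem pf_AP2 (hGSM : T_GSM) (hCOL : T_COL) : T_AP2 := by
  intro m hm1 mu hmu σ0 hσ0
  obtain ⟨C, hC, hmom⟩ := moment_le hGSM hCOL m hm1 σ0 hσ0
  refine ⟨C, fun s hs1 hs2 _ => ?_⟩
  have hm1' : (1 : ℝ) ≤ m := by exact_mod_cast hm1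
  set w : ℂ := s + ((m : ℂ) - 1) / 2 with hw
  have hwre : w.re = s.re + ((m : ℝ) - 1) / 2 := by
    rw [hw]
    simp
  have hw0 : 0 < w.re := by
    rw [hwre]
    linarith
  have hw00 : w ≠ 0 := by
    intro h
    rw [h] at hw0
    simp at hw0
  show ‖∫ z, ks w (mt z) * pw mu (mt z) ∂(hm m)‖ ≤ C
  by_cases hint : Integrable (fun z : V m => ks w (mt z) * pw mu (mt z)) (hm m)
  · have hcont : ∀ n : ℕ, Continuous fun z : V m => ((ct n (mt z) : ℝ) : ℂ) := by
      intro n
      have h1 : Continuous fun z : Mat m => ((ct n z : ℝ) : ℂ) :=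
        Complex.continuous_ofReal.comp (continuous_ct n)
      exact h1
    have hlim : Filter.Tendsto (fun n : ℕ => ∫ z, ((ct n (mt z) : ℝ) : ℂ) *
        (ks w (mt z) * pw mu (mt z)) ∂(hm m)) Filter.atTop
        (nhds (∫ z, ks w (mt z) * pw mu (mt z) ∂(hm m))) := by
      refine tendsto_integral_of_dominated_convergence
        (fun z => ‖ks w (mt z) * pw mu (mt z)‖) ?_ hint.norm ?_ ?_
      · intro n
        exact (hcont n).aestronglyMeasurable.mul hint.aestronglyMeasurable
      · intro n
        refine Filter.Eventually.of_forall fun z => ?_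
        rw [norm_mul, Complex.norm_real, Real.norm_eq_abs, abs_of_nonneg (ct_nonneg n _)]
        exact mul_le_of_le_one_left (norm_nonneg _) (ct_le n _)
      · refine Filter.Eventually.of_forall fun z => ?_
        by_cases hz : (mt z).det = 0
        · have : ks w (mt z) = 0 := by
            unfold ks
            rw [hz, abs_zero, Complex.ofReal_zero, Complex.zero_cpow hw00, mul_zero]
          simp [this]
        · have hpos : 0 < |(mt z).det| := abs_pos.2 hz
          refine tendsto_const_nhds.congr' ?_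
          obtain ⟨n1, hn1⟩ := exists_nat_ge (fr (mt z))
          obtain ⟨n2, hn2⟩ := exists_nat_ge (2 / |(mt z).det|)
          filter_upwards [Filter.eventually_ge_atTop (max n1 n2)] with n hn
          have h1 : (n1 : ℝ) ≤ n := by exact_mod_cast (le_max_left _ _).trans hn
          have h2 : (n2 : ℝ) ≤ n := by exact_mod_cast (le_max_right _ _).trans hn
          rw [ct_one (by linarith), Complex.ofReal_one, one_mul]
          rw [← div_le_iff₀ hpos]
          linarith
    refine le_of_tendsto hlim.norm (Filter.Eventually.of_forall fun n => ?_)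
    have hT := tst_kn (m := m) hw0 n
    have e1 : ∫ z, ((ct n (mt z) : ℝ) : ℂ) * (ks w (mt z) * pw mu (mt z)) ∂(hm m) =
        ∫ z, (fun z : Mat m => ((ct n z : ℝ) : ℂ) * ks w z) (mt z) * pw mu (mt z) ∂(hm m) := by
      refine integral_congr_ae (Filter.Eventually.of_forall fun z => ?_)
      simp only
      ring
    rw [e1]
    refine (hmu _ hT).trans ?_
    have hcont2 : Continuous fun z : V m =>
        (fun z : Mat m => ((ct n z : ℝ) : ℂ) * ks w z) (mt z) := hT.cont
    rw [integral_norm_eq_lintegral_enorm hcont2.aestronglyMeasurable]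
    refine ENNReal.toReal_le_of_le_ofReal hC.le ?_
    refine le_trans (lintegral_mono fun z => ?_) (hmom s.re hs1 hs2)
    rw [← ofReal_norm]
    apply ENNReal.ofReal_le_ofReal
    simp only
    rw [norm_mul, Complex.norm_real, Real.norm_eq_abs, abs_of_nonneg (ct_nonneg n _),
      norm_ks hw0, hwre]
    refine mul_le_of_le_one_left ?_ (ct_le n _)
    positivity
  · rw [integral_undef hint, norm_zero]
    exact hC.le

end Pool.Agent.H92.GZ
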